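import Pool.Agent.H218.BiEmbD

namespace Pool.Agent.Results.MP_683aef_lc.ThreeClasses

open FirstOrder FirstOrder.Language FirstOrder.Language.Structure

/-- The countable models of a theory `T` (as a type of bundled structures). -/
abbrev CM {L : FirstOrder.Language.{0, 0}} (T : L.Theory) : Type 1 :=
  {M : Theory.ModelType.{0, 0, 0} T // Countable M}

/-- Similarity: mutual elementary embeddability. -/
def simSetoid {L : FirstOrder.Language.{0, 0}} (T : L.Theory) : Setoid (CM T) where
  r M N := Nonempty (M.1 ↪ₑ[L] N.1) ∧ Nonempty (N.1 ↪ₑ[L] M.1)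
  iseqv :=
    { refl := fun M => ⟨⟨ElementaryEmbedding.refl L M.1⟩, ⟨ElementaryEmbedding.refl L M.1⟩⟩
      symm := fun h => ⟨h.2, h.1⟩
      trans := fun h h' => ⟨⟨h'.1.some.comp h.1.some⟩, ⟨h.2.some.comp h'.2.some⟩⟩ }

/-- Isomorphism of countable models. -/
def isoSetoid {L : FirstOrder.Language.{0, 0}} (T : L.Theory) : Setoid (CM T) where
  r M N := Nonempty (M.1 ≃[L] N.1)
  iseqv :=
    { refl := fun M => ⟨Language.Equiv.refl L M.1⟩
      symm := fun h => ⟨h.some.symm⟩
      trans := fun h h' => ⟨h'.some.comp h.some⟩ }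

/-- `B_T(ω)`: the number of similarity classes of countable models. -/
noncomputable def numSim {L : FirstOrder.Language.{0, 0}} (T : L.Theory) : Cardinal.{1} :=
  Cardinal.mk (Quotient (simSetoid T))

/-- `I(T,ω)`: the number of countable models up to isomorphism. -/
noncomputable def numIso {L : FirstOrder.Language.{0, 0}} (T : L.Theory) : Cardinal.{1} :=
  Cardinal.mk (Quotient (isoSetoid T))

open Pool.Agent.H218.BiEmb

theorem rs_ext {M : Type} (S T : RS M) (h1 : ∀ x y, S.lt x y ↔ T.lt x y)
    (h2 : ∀ x y, S.R x y ↔ T.R x y) (h3 : ∀ m x, S.U m x ↔ T.U m x)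
    (h4 : ∀ x, S.E x ↔ T.E x) : S = T := by
  obtain ⟨a1, a2, a3, a4, _, _, _, _, _⟩ := S
  obtain ⟨b1, b2, b3, b4, _, _, _, _, _⟩ := T
  have e1 : a1 = b1 := by funext x y; exact propext (h1 x y)
  have e2 : a2 = b2 := by funext x y; exact propext (h2 x y)
  have e3 : a3 = b3 := by funext m x; exact propext (h3 m x)
  have e4 : a4 = b4 := by funext x; exact propext (h4 x)
  subst e1 e2 e3 e4
  rfl

theorem compat_unique {M : Type} [Lg.Structure M] (S T : RS M) (hS : Compat S)
    (hT : Compat T) : S = T := by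
  refine rs_ext S T (fun x y => ?_) (fun x y => ?_) (fun m x => ?_) (fun x => ?_)
  · exact (hS 2 Rl.lt ![x, y]).symm.trans (hT 2 Rl.lt ![x, y])
  · exact (hS 2 Rl.r ![x, y]).symm.trans (hT 2 Rl.r ![x, y])
  · exact (hS 1 (Rl.u m) ![x]).symm.trans (hT 1 (Rl.u m) ![x])
  · exact (hS 1 Rl.e ![x]).symm.trans (hT 1 Rl.e ![x])

theorem countable_symbols : Countable Lg.Symbols := by
  have h1 : Countable (Σ l, Lg.Functions l) := by
    have : IsEmpty (Σ l, Lg.Functions l) := ⟨fun x => Empty.elim x.2⟩
    infer_instance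
  have h2 : ∀ l, Countable (Lg.Relations l) := by
    intro l
    change Countable (Rl l)
    let f : Rl l → ℕ := fun r => match l, r with
      | _, .lt => 0
      | _, .r => 1
      | _, .u m => m + 1
      | _, .e => 0
    refine Function.Injective.countable (f := f) ?_
    intro a b hab
    cases a <;> cases b <;> simp_all [f]
  have h3 : Countable (Σ l, Lg.Relations l) := inferInstance
  unfold Language.Symbols
  infer_instance

/-- There is a complete theory in a countable language, with only infinite models, whose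
countable models form exactly three classes under mutual elementary embeddability and which has
at least continuum many (in particular uncountably many) countable models up to isomorphism. -/
theorem result : ∃ (L : FirstOrder.Language.{0, 0}) (T : L.Theory), Countable L.Symbols ∧
    T.IsComplete ∧ (∀ M : Theory.ModelType.{0, 0, 0} T, Infinite M) ∧
    numSim T = 3 ∧ Cardinal.continuum ≤ numIso T := by
  classical
  obtain ⟨T₀, g₀, c₀⟩ := exists_cls0
  letI inst₀ : Lg.Structure (Empty ⊕ ℕ) := T₀.str
  let Th : Lg.Theory := Lg.completeTheory (Empty ⊕ ℕ)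
  have hmod : ∀ M : Theory.ModelType.{0, 0, 0} Th, (Empty ⊕ ℕ) ≅[Lg] M := by
    intro M
    rw [elementarilyEquivalent_iff]
    intro φ
    haveI : (M : Type) ⊨ Lg.completeTheory (Empty ⊕ ℕ) := M.is_model
    exact (realize_iff_of_model_completeTheory (Empty ⊕ ℕ) M φ).symm
  have hrs : ∀ M : Theory.ModelType.{0, 0, 0} Th, ∃ S : RS M, Compat S ∧ Good S := fun M =>
    model_good T₀ T₀.str_compat g₀ (hmod M)
  choose rs hrc hrg using hrs
  have hmk : ∀ (α : Type) (_ : Countable α) (_ : Nonempty α) (K : RS α), Good K →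
      ∃ M : CM Th, cls (rs M.1) = cls K ∧ Inv (rs M.1) = Inv K := by
    intro α hα hne K hK
    letI : Lg.Structure α := K.str
    have hee : (Empty ⊕ ℕ) ≅[Lg] α := good_equiv T₀ K T₀.str_compat K.str_compat g₀ hK
    haveI : α ⊨ Th := hee.theory_model_iff.1 inferInstance
    refine ⟨⟨Theory.ModelType.of Th α, hα⟩, ?_⟩
    have : rs (Theory.ModelType.of Th α) = K :=
      compat_unique _ _ (hrc (Theory.ModelType.of Th α)) K.str_compat
    constructor
    · change cls (rs (Theory.ModelType.of Th α)) = _
      rw [this]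
      rfl
    · change Inv (rs (Theory.ModelType.of Th α)) = _
      rw [this]
      rfl
  have hcls : ∀ M N : CM Th, Nonempty (M.1 ↪ₑ[Lg] N.1) ↔ cls (rs M.1) ≤ cls (rs N.1) := by
    intro M N
    haveI : Countable M.1 := M.2
    rw [← cls_le_iff (rs M.1) (rs N.1) (hrg N.1)]
    constructor
    · rintro ⟨g⟩
      refine ⟨g, ?_⟩
      rintro n _ ⟨x, rfl⟩ _ ⟨y, rfl⟩
      have hlt := (hrc M.1 2 Rl.lt ![x, y]).symm.trans
        ((g.map_rel (Rl.lt : Lg.Relations 2) ![x, y]).symm.trans
          (hrc N.1 2 Rl.lt (g ∘ ![x, y])))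
      have hR := (hrc M.1 2 Rl.r ![x, y]).symm.trans
        ((g.map_rel (Rl.r : Lg.Relations 2) ![x, y]).symm.trans
          (hrc N.1 2 Rl.r (g ∘ ![x, y])))
      have hU := fun m => (hrc M.1 1 (Rl.u m) ![x]).symm.trans
        ((g.map_rel (Rl.u m : Lg.Relations 1) ![x]).symm.trans
          (hrc N.1 1 (Rl.u m) (g ∘ ![x])))
      have hE := (hrc M.1 1 Rl.e ![x]).symm.trans
        ((g.map_rel (Rl.e : Lg.Relations 1) ![x]).symm.trans
          (hrc N.1 1 Rl.e (g ∘ ![x])))
      exact ⟨g.injective.eq_iff.symm, hlt, hR, fun m _ => hU m, hE⟩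
    · rintro ⟨f, hf⟩
      exact elem_of (rs M.1) (rs N.1) (hrc _) (hrc _) (hrg _) (hrg _) f hf
  have hinf : Infinite (Empty ⊕ ℕ) := inferInstance
  refine ⟨Lg, Th, countable_symbols, completeTheory.isComplete Lg (Empty ⊕ ℕ),
    fun M => (hmod M).infinite_iff.1 hinf, ?_, ?_⟩
  · let q : Quotient (simSetoid Th) → ULift.{1} (Fin 3) :=
      Quotient.lift (fun M : CM Th => ULift.up ⟨cls (rs M.1), cls_lt _⟩) (by
        rintro M N ⟨h1, h2⟩
        have a1 := (hcls M N).1 h1
        have a2 := (hcls N M).1 h2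
        have : cls (rs M.1) = cls (rs N.1) := le_antisymm a1 a2
        simp only [this])
    have hq : Function.Bijective q := by
      constructor
      · intro a b
        refine Quotient.inductionOn₂ a b fun M N h => ?_
        apply Quotient.sound
        have h' : cls (rs M.1) = cls (rs N.1) := by
          have := congrArg (fun z : ULift.{1} (Fin 3) => (z.down : ℕ)) h
          exact this
        exact ⟨(hcls M N).2 h'.le, (hcls N M).2 h'.ge⟩
      · rintro ⟨i⟩
        have hex : ∃ M : CM Th, cls (rs M.1) = i := by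
          fin_cases i
          · obtain ⟨M, h, _⟩ := hmk _ inferInstance inferInstance T₀ g₀
            exact ⟨M, h.trans c₀⟩
          · obtain ⟨T, gT, cT⟩ := exists_cls1
            obtain ⟨M, h, _⟩ := hmk _ inferInstance inferInstance T gT
            exact ⟨M, h.trans cT⟩
          · obtain ⟨T, gT, cT⟩ := exists_cls2
            obtain ⟨M, h, _⟩ := hmk _ inferInstance inferInstance T gT
            exact ⟨M, h.trans cT⟩
        obtain ⟨M, hM⟩ := hex
        refine ⟨Quotient.mk _ M, ?_⟩
        change ULift.up (⟨cls (rs M.1), cls_lt _⟩ : Fin 3) = ULift.up i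
        congr 1
        exact Fin.ext hM
    unfold numSim
    rw [Cardinal.mk_congr (Equiv.ofBijective q hq)]
    simp
  · let fX : Set ℕ → ℕ → ℕ := fun X n => match n with
      | 0 => 0
      | n + 1 => if n ∈ X then n + 1 else 0
    have hfX : ∀ X n, n ∈ X ↔ n + 1 ∈ Set.range (fX X) := by
      intro X n
      constructor
      · intro h
        exact ⟨n + 1, by simp [fX, h]⟩
      · rintro ⟨m, hm⟩
        rcases m with _ | m
        · simp [fX] at hm
        · by_cases hmX : m ∈ X
          · simp only [fX, hmX, if_true] at hm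
            have : m = n := by omega
            exact this ▸ hmX
          · simp [fX, hmX] at hm
    have hM : ∀ X : Set ℕ, ∃ M : CM Th, Inv (rs M.1) = Set.range (fX X) := by
      intro X
      obtain ⟨T, gT, hT⟩ := exists_inv (fX X)
      obtain ⟨M, _, h⟩ := hmk _ inferInstance inferInstance T gT
      exact ⟨M, h.trans hT⟩
    choose MX hMX using hM
    have hinv : ∀ M N : CM Th, Nonempty (M.1 ≃[Lg] N.1) → Inv (rs M.1) ⊆ Inv (rs N.1) := by
      rintro M N ⟨e⟩
      refine inv_le (rs M.1) (rs N.1) e.toEquiv (fun x y => ?_) (fun x y => ?_) (fun m x => ?_)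
      · exact (hrc M.1 2 Rl.lt ![x, y]).symm.trans
          ((e.map_rel (Rl.lt : Lg.Relations 2) ![x, y]).symm.trans
            (hrc N.1 2 Rl.lt (e ∘ ![x, y])))
      · exact (hrc M.1 2 Rl.r ![x, y]).symm.trans
          ((e.map_rel (Rl.r : Lg.Relations 2) ![x, y]).symm.trans
            (hrc N.1 2 Rl.r (e ∘ ![x, y])))
      · exact (hrc M.1 1 (Rl.u m) ![x]).symm.trans
          ((e.map_rel (Rl.u m : Lg.Relations 1) ![x]).symm.trans
            (hrc N.1 1 (Rl.u m) (e ∘ ![x])))
    let h : ULift.{1} (Set ℕ) → Quotient (isoSetoid Th) := fun X => Quotient.mk _ (MX X.down)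
    have hh : Function.Injective h := by
      rintro ⟨X⟩ ⟨Y⟩ hXY
      have hiso : Nonempty ((MX X).1 ≃[Lg] (MX Y).1) := Quotient.exact hXY
      have e1 := hinv _ _ hiso
      have e2 := hinv _ _ ⟨hiso.some.symm⟩
      have e3 : Set.range (fX X) = Set.range (fX Y) := by
        rw [← hMX X, ← hMX Y]
        exact Set.Subset.antisymm e1 e2
      congr 1
      ext n
      rw [hfX X n, hfX Y n, e3]
    unfold numIso
    refine le_trans (le_of_eq ?_) (Cardinal.mk_le_of_injective hh)
    simp

end Pool.Agent.Results.MP_683aef_lc.ThreeClasses
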